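import Mathlib

/-!
# The unit group of the universal CP monoid is generated by the images of symmetric groups
-/

open Function

namespace Pool.Agent.Results.MP_6189ff_al.UnitsGenerated

universe u

/-- A `d`-CP structure on a monoid `M`. -/
structure DCP (M : Type u) [Monoid M] (d : ℕ) where
  Phi : (Fin d → M) → M
  tau : Fin d → M
  bij : Bijective Phi
  spec : ∀ (m : Fin d → M) (i : Fin d), tau i * Phi m = m i

/-- The `1`-CP structure `(id, 1)`. -/
def trivialCP (M : Type u) [Monoid M] : DCP M 1 where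
  Phi m := m 0
  tau _ := 1
  bij := ⟨fun m m' h => by ext i; rw [Subsingleton.elim i 0]; exact h, fun x => ⟨fun _ => x, rfl⟩⟩
  spec m i := by rw [one_mul, Subsingleton.elim i 0]

section Basic

variable {M : Type u} [Monoid M]

/-- Combination of an `s`-CP structure with `n i`-CP structures, `i = 1, …, s`. -/
def combine {s : ℕ} (Ψ : DCP M s) (n : Fin s → ℕ) (D : ∀ i, DCP M (n i)) :
    DCP M (∑ i, n i) where
  Phi m := Ψ.Phi fun i => (D i).Phi fun j => m (finSigmaFinEquiv ⟨i, j⟩)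
  tau k := (D (finSigmaFinEquiv.symm k).1).tau (finSigmaFinEquiv.symm k).2 *
    Ψ.tau (finSigmaFinEquiv.symm k).1
  bij := by
    constructor
    · intro m m' h
      ext k
      obtain ⟨⟨i, j⟩, rfl⟩ := finSigmaFinEquiv.surjective k
      have h1 := congrFun (Ψ.bij.1 h) i
      exact congrFun ((D i).bij.1 h1) j
    · intro x
      obtain ⟨a, rfl⟩ := Ψ.bij.2 x
      choose b hb using fun i => (D i).bij.2 (a i)
      refine ⟨fun k => b (finSigmaFinEquiv.symm k).1 (finSigmaFinEquiv.symm k).2, ?_⟩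
      show Ψ.Phi _ = Ψ.Phi a
      congr 1
      funext i
      rw [← hb i]
      congr 1
      funext j
      show b (finSigmaFinEquiv.symm (finSigmaFinEquiv ⟨i, j⟩)).1 _ = _
      rw [Equiv.symm_apply_apply]
  spec m k := by
    rw [mul_assoc, Ψ.spec, (D _).spec]
    simp

/-- Homomorphisms of CP monoids. -/
def IsCPHom {N : Type u} [Monoid N] (cp : DCP M 2) (cp' : DCP N 2) (f : M →* N) : Prop :=
  (∀ i, f (cp.tau i) = cp'.tau i) ∧ ∀ m, f (cp.Phi m) = cp'.Phi fun i => f (m i)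

/-- `ψ_{Φ,τ}(σ) = Φ(τ_{σ⁻¹(1)}, …, τ_{σ⁻¹(d)})`. -/
def psi {d : ℕ} (D : DCP M d) (σ : Equiv.Perm (Fin d)) : M := D.Phi fun i => D.tau (σ⁻¹ i)

/-- The set `𝕊(U)` of all structures obtained from `(Σ, π₁, π₂)` and `(id, 1)` by finitely many
combinations. -/
inductive InS (cp : DCP M 2) : ∀ d : ℕ, DCP M d → Prop
  | two : InS cp 2 cp
  | one : InS cp 1 (trivialCP M)
  | comb {s : ℕ} (Ψ : DCP M s) (n : Fin s → ℕ) (D : ∀ i, DCP M (n i)) :
      InS cp s Ψ → (∀ i, InS cp (n i) (D i)) → InS cp (∑ i, n i) (combine Ψ n D)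

/-- The subgroup of the group of units generated by all images `ψ_{Φ,τ}(S_d)`, `d ≥ 2`. -/
def H (cp : DCP M 2) : Subgroup Mˣ :=
  Subgroup.closure {u | ∃ (d : ℕ) (D : DCP M d) (σ : Equiv.Perm (Fin d)),
    2 ≤ d ∧ InS cp d D ∧ (u : M) = psi D σ}

end Basic

/-- `(U, Σ, π₁, π₂)` is a universal (i.e. initial) CP monoid. -/
def IsUniversal {U : Type u} [Monoid U] (cp : DCP U 2) : Prop :=
  ∀ (N : Type u) [Monoid N] (cp' : DCP N 2), ∃! f : U →* N, IsCPHom cp cp' f

/-! ### General identities -/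

section Identities

variable {M : Type u} [Monoid M]

theorem Phi_tau_mul {d : ℕ} (D : DCP M d) (x : M) : D.Phi (fun i => D.tau i * x) = x := by
  obtain ⟨m, rfl⟩ := D.bij.2 x
  congr 1
  ext i
  rw [D.spec]

theorem Phi_mul {d : ℕ} (D : DCP M d) (m : Fin d → M) (x : M) :
    D.Phi m * x = D.Phi (fun i => m i * x) := by
  rw [← Phi_tau_mul D (D.Phi m * x)]
  congr 1
  ext i
  rw [← mul_assoc, D.spec]

theorem psi_mul {d : ℕ} (D : DCP M d) (σ ρ : Equiv.Perm (Fin d)) :
    psi D σ * psi D ρ = psi D (σ * ρ) := by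
  unfold psi
  rw [Phi_mul]
  congr 1
  ext i
  rw [D.spec, mul_inv_rev]; rfl

theorem psi_one {d : ℕ} (D : DCP M d) : psi D 1 = 1 := by
  unfold psi
  have := Phi_tau_mul D 1
  simpa using this

/-- `ψ_{Φ,τ}(σ)` as a unit. -/
def psiUnit {d : ℕ} (D : DCP M d) (σ : Equiv.Perm (Fin d)) : Mˣ where
  val := psi D σ
  inv := psi D σ⁻¹
  val_inv := by rw [psi_mul, mul_inv_cancel, psi_one]
  inv_val := by rw [psi_mul, inv_mul_cancel, psi_one]

variable (cp : DCP M 2)

/-- `Σ(a, b)`. -/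
def sg (a b : M) : M := cp.Phi ![a, b]

/-- `π₁` -/
def p1 : M := cp.tau 0

/-- `π₂` -/
def p2 : M := cp.tau 1

theorem p1_sg (a b : M) : p1 cp * sg cp a b = a := cp.spec _ 0

theorem p2_sg (a b : M) : p2 cp * sg cp a b = b := cp.spec _ 1

theorem sg_mul (a b x : M) : sg cp a b * x = sg cp (a * x) (b * x) := by
  unfold sg
  rw [Phi_mul]
  congr 1
  ext i
  fin_cases i <;> rfl

theorem sg_p (x : M) : sg cp (p1 cp * x) (p2 cp * x) = x := by
  conv_rhs => rw [← Phi_tau_mul cp x]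
  unfold sg
  congr 1
  ext i
  fin_cases i <;> rfl

theorem sg_p' : sg cp (p1 cp) (p2 cp) = 1 := by
  have := sg_p cp 1
  rwa [mul_one, mul_one] at this

theorem sg_inj {a b c d : M} (h : sg cp a b = sg cp c d) : a = c ∧ b = d := by
  constructor
  · rw [← p1_sg cp a b, h, p1_sg]
  · rw [← p2_sg cp a b, h, p2_sg]

theorem Phi_eq_sg (m : Fin 2 → M) : cp.Phi m = sg cp (m 0) (m 1) := by
  unfold sg
  congr 1
  ext i
  fin_cases i <;> rfl

/-! ### Elements of the subgroup `H` -/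

theorem psiUnit_mem {d : ℕ} {D : DCP M d} (hd : 2 ≤ d) (hD : InS cp d D)
    (σ : Equiv.Perm (Fin d)) : psiUnit D σ ∈ H cp :=
  Subgroup.subset_closure ⟨d, D, σ, hd, hD, rfl⟩

/-- The set of elements of `M` which are units belonging to `H`. -/
def InH (x : M) : Prop := ∃ u ∈ H cp, (u : M) = x

theorem inH_one : InH cp 1 := ⟨1, (H cp).one_mem, rfl⟩

theorem InH.mul {x y : M} (hx : InH cp x) (hy : InH cp y) : InH cp (x * y) := by
  obtain ⟨u, hu, rfl⟩ := hx
  obtain ⟨v, hv, rfl⟩ := hy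
  exact ⟨u * v, (H cp).mul_mem hu hv, rfl⟩

theorem inH_swap : InH cp (sg cp (p2 cp) (p1 cp)) := by
  refine ⟨psiUnit cp (Equiv.swap 0 1), psiUnit_mem cp le_rfl InS.two _, ?_⟩
  show psi cp (Equiv.swap 0 1) = _
  unfold psi
  rw [Phi_eq_sg, Equiv.swap_inv, Equiv.swap_apply_left, Equiv.swap_apply_right]
  rfl

/-- Arities of the structure `Σ(Φ × id)`. -/
def nF (d : ℕ) : Fin 2 → ℕ
  | 0 => d
  | 1 => 1

/-- The structures combined in `Σ(Φ × id)`. -/
def DF {d : ℕ} (D : DCP M d) : ∀ i : Fin 2, DCP M (nF d i)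
  | 0 => D
  | 1 => trivialCP M

theorem inS_comb {d : ℕ} {D : DCP M d} (hD : InS cp d D) :
    InS cp (∑ i, nF d i) (combine cp (nF d) (DF D)) := by
  apply InS.comb
  · exact InS.two
  · intro i
    match i with
    | 0 => exact hD
    | 1 => exact InS.one

theorem psi_combine {s : ℕ} (Ψ : DCP M s) (n : Fin s → ℕ) (D : ∀ i, DCP M (n i))
    (σ : Equiv.Perm (Σ i, Fin (n i))) :
    psi (combine Ψ n D) ((finSigmaFinEquiv.symm.trans σ).trans finSigmaFinEquiv) =
      Ψ.Phi fun i => (D i).Phi fun j => (D (σ.symm ⟨i, j⟩).1).tau (σ.symm ⟨i, j⟩).2 *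
        Ψ.tau (σ.symm ⟨i, j⟩).1 := by
  show Ψ.Phi (fun i => (D i).Phi fun j => _) = _
  congr 1
  funext i
  congr 1
  funext j
  show (combine Ψ n D).tau (finSigmaFinEquiv (σ.symm (finSigmaFinEquiv.symm
    (finSigmaFinEquiv ⟨i, j⟩)))) = _
  rw [Equiv.symm_apply_apply]
  show (D (finSigmaFinEquiv.symm (finSigmaFinEquiv (σ.symm ⟨i, j⟩))).1).tau _ * _ = _
  rw [Equiv.symm_apply_apply]

theorem two_le_sum {d : ℕ} (hd : 1 ≤ d) : 2 ≤ ∑ i, nF d i := by
  rw [Fin.sum_univ_two]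
  show 2 ≤ d + 1
  omega

theorem inH_t : InH cp (sg cp (sg cp (p1 cp * p1 cp) (p2 cp)) (p2 cp * p1 cp)) := by
  let σ' : Equiv.Perm (Σ i : Fin 2, Fin (nF 2 i)) :=
    Equiv.swap ⟨0, (1 : Fin 2)⟩ ⟨1, (0 : Fin 1)⟩
  refine ⟨psiUnit (combine cp (nF 2) (DF cp)) ((finSigmaFinEquiv.symm.trans σ').trans
    finSigmaFinEquiv), psiUnit_mem cp (two_le_sum one_le_two) (inS_comb cp InS.two) _, ?_⟩
  show psi (combine cp (nF 2) (DF cp)) _ = _
  rw [psi_combine, Phi_eq_sg]
  have h0 : σ'.symm ⟨0, (0 : Fin 2)⟩ = ⟨0, (0 : Fin 2)⟩ := by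
    rw [Equiv.symm_swap]; decide
  have h1 : σ'.symm ⟨0, (1 : Fin 2)⟩ = ⟨1, (0 : Fin 1)⟩ := by
    rw [Equiv.symm_swap]; decide
  have h2 : σ'.symm ⟨1, (0 : Fin 1)⟩ = ⟨0, (1 : Fin 2)⟩ := by
    rw [Equiv.symm_swap]; decide
  refine congrArg₂ (sg cp) ?_ ?_
  · show cp.Phi (fun j : Fin 2 => _) = _
    rw [Phi_eq_sg]
    refine congrArg₂ (sg cp) ?_ ?_
    · show (DF cp (σ'.symm ⟨0, (0 : Fin 2)⟩).1).tau (σ'.symm ⟨0, (0 : Fin 2)⟩).2 *
        cp.tau (σ'.symm ⟨0, (0 : Fin 2)⟩).1 = _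
      rw [h0]; rfl
    · show (DF cp (σ'.symm ⟨0, (1 : Fin 2)⟩).1).tau (σ'.symm ⟨0, (1 : Fin 2)⟩).2 *
        cp.tau (σ'.symm ⟨0, (1 : Fin 2)⟩).1 = _
      rw [h1]
      show 1 * _ = _
      rw [one_mul]; rfl
  · show (DF cp (σ'.symm ⟨1, (0 : Fin 1)⟩).1).tau (σ'.symm ⟨1, (0 : Fin 1)⟩).2 *
        cp.tau (σ'.symm ⟨1, (0 : Fin 1)⟩).1 = _
    rw [h2]; rfl

/-- `x ↦ Σ(x π₁, π₂)` maps units to units. -/
theorem sg_left_mul (x y : M) : sg cp (x * p1 cp) (p2 cp) * sg cp (y * p1 cp) (p2 cp) =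
    sg cp (x * y * p1 cp) (p2 cp) := by
  rw [sg_mul, mul_assoc, p1_sg, p2_sg, mul_assoc]

/-- The homomorphism `x ↦ Σ(x π₁, π₂)`. -/
def leftHom : M →* M where
  toFun x := sg cp (x * p1 cp) (p2 cp)
  map_one' := by rw [one_mul, sg_p']
  map_mul' x y := (sg_left_mul cp x y).symm

theorem inH_left {x : M} (hx : InH cp x) : InH cp (sg cp (x * p1 cp) (p2 cp)) := by
  obtain ⟨u, hu, rfl⟩ := hx
  refine ⟨Units.map (leftHom cp) u, ?_, rfl⟩
  have hle : H cp ≤ (H cp).comap (Units.map (leftHom cp)) := by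
    conv_lhs => unfold H
    rw [Subgroup.closure_le]
    rintro v ⟨d, D, σ, hd, hD, hv⟩
    apply Subgroup.subset_closure
    let σ' : Equiv.Perm (Σ i : Fin 2, Fin (nF d i)) := Equiv.sigmaCongrRight fun i =>
      match i with
      | 0 => σ
      | 1 => Equiv.refl _
    refine ⟨_, combine cp (nF d) (DF D), (finSigmaFinEquiv.symm.trans σ').trans finSigmaFinEquiv,
      two_le_sum (by omega), inS_comb cp hD, ?_⟩
    rw [psi_combine, Phi_eq_sg]
    show sg cp ((v : M) * p1 cp) (p2 cp) = _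
    congr 1
    · rw [hv]
      unfold psi
      rw [Phi_mul]
      rfl
    · show _ = 1 * cp.tau 1
      rw [one_mul]; rfl
  exact hle hu

theorem inH_right {x : M} (hx : InH cp x) : InH cp (sg cp (p1 cp) (x * p2 cp)) := by
  have h := ((inH_swap cp).mul cp (inH_left cp hx)).mul cp (inH_swap cp)
  have e : sg cp (p2 cp) (p1 cp) * sg cp (x * p1 cp) (p2 cp) * sg cp (p2 cp) (p1 cp) =
      sg cp (p1 cp) (x * p2 cp) := by
    rw [sg_mul, p2_sg, p1_sg, sg_mul, p2_sg, mul_assoc, p1_sg]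
  rwa [e] at h

theorem inH_both {x y : M} (hx : InH cp x) (hy : InH cp y) :
    InH cp (sg cp (x * p1 cp) (y * p2 cp)) := by
  have h := (inH_left cp hx).mul cp (inH_right cp hy)
  have e : sg cp (x * p1 cp) (p2 cp) * sg cp (p1 cp) (y * p2 cp) =
      sg cp (x * p1 cp) (y * p2 cp) := by
    rw [sg_mul, mul_assoc, p1_sg, p2_sg]
  rwa [e] at h

/-- The element `a` with `a Σ(x, Σ(y, z)) = Σ(Σ(x, y), z)`. -/
theorem inH_assoc :
    InH cp (sg cp (sg cp (p1 cp) (p1 cp * p2 cp)) (p2 cp * p2 cp)) := by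
  have h := ((inH_left cp (inH_swap cp)).mul cp (inH_t cp)).mul cp (inH_swap cp)
  have e : sg cp (sg cp (p2 cp) (p1 cp) * p1 cp) (p2 cp) *
      sg cp (sg cp (p1 cp * p1 cp) (p2 cp)) (p2 cp * p1 cp) * sg cp (p2 cp) (p1 cp) =
      sg cp (sg cp (p1 cp) (p1 cp * p2 cp)) (p2 cp * p2 cp) := by
    simp only [sg_mul, p2_sg, p1_sg, mul_assoc]
  rwa [e] at h

/-! ### The equivalence relation `x ≈ y ↔ x ∈ H y` -/

/-- `x` and `y` differ by left multiplication by an element of `H`. -/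
def Eqv (x y : M) : Prop := ∃ h, InH cp h ∧ x = h * y

theorem Eqv.refl (x : M) : Eqv cp x x := ⟨1, inH_one cp, (one_mul x).symm⟩

theorem Eqv.symm {x y : M} (h : Eqv cp x y) : Eqv cp y x := by
  obtain ⟨_, ⟨u, hu, rfl⟩, rfl⟩ := h
  exact ⟨_, ⟨u⁻¹, (H cp).inv_mem hu, rfl⟩, (Units.inv_mul_cancel_left u y).symm⟩

theorem Eqv.trans {x y z : M} (h : Eqv cp x y) (h' : Eqv cp y z) : Eqv cp x z := by
  obtain ⟨a, ha, rfl⟩ := h
  obtain ⟨b, hb, rfl⟩ := h'
  exact ⟨a * b, ha.mul cp hb, (mul_assoc a b z).symm⟩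

theorem Eqv.mul_right {x y : M} (h : Eqv cp x y) (z : M) : Eqv cp (x * z) (y * z) := by
  obtain ⟨a, ha, rfl⟩ := h
  exact ⟨a, ha, mul_assoc a y z⟩

theorem Eqv.sg {x y x' y' : M} (h : Eqv cp x x') (h' : Eqv cp y y') :
    Eqv cp (sg cp x y) (sg cp x' y') := by
  obtain ⟨a, ha, rfl⟩ := h
  obtain ⟨b, hb, rfl⟩ := h'
  refine ⟨_, inH_both cp ha hb, ?_⟩
  rw [sg_mul, mul_assoc, mul_assoc, p1_sg, p2_sg]

theorem eqv_comm (x y : M) : Eqv cp (UnitsGenerated.sg cp x y) (UnitsGenerated.sg cp y x) :=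
  ⟨_, inH_swap cp, by rw [sg_mul, p2_sg, p1_sg]⟩

theorem eqv_assoc (x y z : M) :
    Eqv cp (UnitsGenerated.sg cp (UnitsGenerated.sg cp x y) z)
      (UnitsGenerated.sg cp x (UnitsGenerated.sg cp y z)) :=
  ⟨_, inH_assoc cp, by simp only [sg_mul, mul_assoc, p2_sg, p1_sg]⟩

/-! ### Words and representations -/

/-- Products of `π₁`'s and `π₂`'s. -/
inductive IsWord : M → Prop
  | one : IsWord 1
  | mul_p1 (w : M) : IsWord w → IsWord (w * p1 cp)
  | mul_p2 (w : M) : IsWord w → IsWord (w * p2 cp)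

/-- `x` is obtained from `n` words by repeated application of `Σ`. -/
inductive Rep : ℕ → M → Prop
  | word (w : M) : IsWord cp w → Rep 1 w
  | sg (m n : ℕ) (x y : M) : Rep m x → Rep n y → Rep (m + n) (sg cp x y)

theorem Rep.pos {n : ℕ} {x : M} (h : Rep cp n x) : 1 ≤ n := by
  induction h with
  | word w _ => exact le_rfl
  | sg m n x y _ _ ih ih' => omega

/-- The main case distinction, according to the last letters of the words. -/
theorem four_cases {n : ℕ} {x : M} (h : Rep cp n x) :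
    (∃ y, Rep cp n y ∧ Eqv cp x (y * p1 cp)) ∨ (∃ y, Rep cp n y ∧ Eqv cp x (y * p2 cp)) ∨
    (∃ a b y z, a + b = n ∧ Rep cp a y ∧ Rep cp b z ∧
      Eqv cp x (sg cp (y * p1 cp) (z * p2 cp))) ∨
    (Eqv cp x 1 ∨ ∃ y, Eqv cp x (sg cp 1 y)) := by
  induction h with
  | word w hw =>
    cases hw with
    | one => exact Or.inr (Or.inr (Or.inr (Or.inl (Eqv.refl cp _))))
    | mul_p1 w hw => exact Or.inl ⟨w, Rep.word w hw, Eqv.refl cp _⟩
    | mul_p2 w hw => exact Or.inr (Or.inl ⟨w, Rep.word w hw, Eqv.refl cp _⟩)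
  | sg m n x x' h1 h2 ih ih' =>
    have hd : ∀ x x' : M, (Eqv cp x 1 ∨ ∃ y, Eqv cp x (sg cp 1 y)) →
        ∃ y, Eqv cp (sg cp x x') (sg cp 1 y) := by
      rintro x x' (h | ⟨y, h⟩)
      · exact ⟨x', h.sg cp (Eqv.refl cp _)⟩
      · exact ⟨sg cp y x', (h.sg cp (Eqv.refl cp x')).trans cp (eqv_assoc cp _ _ _)⟩
    have comm4 : ∀ a b c d : M, Eqv cp (sg cp (sg cp a b) (sg cp c d))
        (sg cp (sg cp a c) (sg cp b d)) := by
      intro a b c d
      -- (a+b)+(c+d) ≈ a+(b+(c+d)) ≈ a+((b+c)+d) ≈ a+((c+b)+d) ≈ a+(c+(b+d)) ≈ (a+c)+(b+d)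
      refine (eqv_assoc cp _ _ _).trans cp ?_
      refine Eqv.trans cp ?_ (eqv_assoc cp _ _ _).symm
      refine (Eqv.refl cp a).sg cp ?_
      refine (eqv_assoc cp _ _ _).symm.trans cp ?_
      refine Eqv.trans cp ?_ (eqv_assoc cp _ _ _)
      exact (eqv_comm cp _ _).sg cp (Eqv.refl cp d)
    have hsg : ∀ a b c : M, sg cp (a * c) (b * c) = sg cp a b * c := fun a b c =>
      (sg_mul cp a b c).symm
    rcases ih with ⟨y, hy, e⟩ | ⟨y, hy, e⟩ | ⟨a, b, y, z, hab, hy, hz, e⟩ | hdd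
    · rcases ih' with ⟨y', hy', e'⟩ | ⟨y', hy', e'⟩ | ⟨a', b', y', z', hab', hy', hz', e'⟩ | hdd'
      · left
        refine ⟨sg cp y y', Rep.sg _ _ _ _ hy hy', ?_⟩
        rw [← hsg]; exact e.sg cp e'
      · right; right; left
        exact ⟨m, n, y, y', rfl, hy, hy', e.sg cp e'⟩
      · right; right; left
        refine ⟨m + a', b', sg cp y y', z', by omega, Rep.sg _ _ _ _ hy hy', hz', ?_⟩
        rw [← hsg]
        exact (e.sg cp e').trans cp (eqv_assoc cp _ _ _).symm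
      · right; right; right; right
        obtain ⟨t, ht⟩ := hd x' x hdd'
        exact ⟨t, (eqv_comm cp _ _).trans cp ht⟩
    · rcases ih' with ⟨y', hy', e'⟩ | ⟨y', hy', e'⟩ | ⟨a', b', y', z', hab', hy', hz', e'⟩ | hdd'
      · right; right; left
        exact ⟨n, m, y', y, by omega, hy', hy, (eqv_comm cp _ _).trans cp (e'.sg cp e)⟩
      · right; left
        refine ⟨sg cp y y', Rep.sg _ _ _ _ hy hy', ?_⟩
        rw [← hsg]; exact e.sg cp e'
      · right; right; left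
        refine ⟨a', b' + m, y', sg cp z' y, by omega, hy', Rep.sg _ _ _ _ hz' hy, ?_⟩
        rw [← hsg]
        exact (eqv_comm cp _ _).trans cp ((e'.sg cp e).trans cp (eqv_assoc cp _ _ _))
      · right; right; right; right
        obtain ⟨t, ht⟩ := hd x' x hdd'
        exact ⟨t, (eqv_comm cp _ _).trans cp ht⟩
    · rcases ih' with ⟨y', hy', e'⟩ | ⟨y', hy', e'⟩ | ⟨a', b', y', z', hab', hy', hz', e'⟩ | hdd'
      · right; right; left
        refine ⟨n + a, b, sg cp y' y, z, by omega, Rep.sg _ _ _ _ hy' hy, hz, ?_⟩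
        rw [← hsg]
        exact (eqv_comm cp _ _).trans cp ((e'.sg cp e).trans cp (eqv_assoc cp _ _ _).symm)
      · right; right; left
        refine ⟨a, b + n, y, sg cp z y', by omega, hy, Rep.sg _ _ _ _ hz hy', ?_⟩
        rw [← hsg]
        exact (e.sg cp e').trans cp (eqv_assoc cp _ _ _)
      · right; right; left
        refine ⟨a + a', b + b', sg cp y y', sg cp z z', by omega, Rep.sg _ _ _ _ hy hy',
          Rep.sg _ _ _ _ hz hz', ?_⟩
        rw [← hsg, ← hsg]
        exact (e.sg cp e').trans cp (comm4 _ _ _ _)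
      · right; right; right; right
        obtain ⟨t, ht⟩ := hd x' x hdd'
        exact ⟨t, (eqv_comm cp _ _).trans cp ht⟩
    · right; right; right; right
      exact hd x x' hdd

/-! ### Closure of the set of represented elements -/

theorem isWord_p1_mul {w : M} (h : IsWord cp w) : IsWord cp (p1 cp * w) := by
  induction h with
  | one => rw [mul_one, ← one_mul (p1 cp)]; exact IsWord.mul_p1 _ IsWord.one
  | mul_p1 w _ ih => rw [← mul_assoc]; exact IsWord.mul_p1 _ ih
  | mul_p2 w _ ih => rw [← mul_assoc]; exact IsWord.mul_p2 _ ih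

theorem isWord_p2_mul {w : M} (h : IsWord cp w) : IsWord cp (p2 cp * w) := by
  induction h with
  | one => rw [mul_one, ← one_mul (p2 cp)]; exact IsWord.mul_p2 _ IsWord.one
  | mul_p1 w _ ih => rw [← mul_assoc]; exact IsWord.mul_p1 _ ih
  | mul_p2 w _ ih => rw [← mul_assoc]; exact IsWord.mul_p2 _ ih

theorem rep_p1_mul {x : M} (h : ∃ n, Rep cp n x) : ∃ n, Rep cp n (p1 cp * x) := by
  obtain ⟨n, h⟩ := h
  cases h with
  | word w hw => exact ⟨1, Rep.word _ (isWord_p1_mul cp hw)⟩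
  | sg m n x y hx hy => exact ⟨m, by rw [p1_sg]; exact hx⟩

theorem rep_p2_mul {x : M} (h : ∃ n, Rep cp n x) : ∃ n, Rep cp n (p2 cp * x) := by
  obtain ⟨n, h⟩ := h
  cases h with
  | word w hw => exact ⟨1, Rep.word _ (isWord_p2_mul cp hw)⟩
  | sg m n x y hx hy => exact ⟨n, by rw [p2_sg]; exact hy⟩

theorem rep_word_mul {w : M} (hw : IsWord cp w) : ∀ {x : M}, (∃ n, Rep cp n x) →
    ∃ n, Rep cp n (w * x) := by
  induction hw with
  | one => intro x hx; rwa [one_mul]
  | mul_p1 w _ ih => intro x hx; rw [mul_assoc]; exact ih (rep_p1_mul cp hx)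
  | mul_p2 w _ ih => intro x hx; rw [mul_assoc]; exact ih (rep_p2_mul cp hx)

theorem rep_mul {x y : M} (hx : ∃ n, Rep cp n x) (hy : ∃ n, Rep cp n y) :
    ∃ n, Rep cp n (x * y) := by
  obtain ⟨n, h⟩ := hx
  induction h with
  | word w hw => exact rep_word_mul cp hw hy
  | sg m n x x' h1 h2 ih ih' =>
    obtain ⟨a, ha⟩ := ih
    obtain ⟨b, hb⟩ := ih'
    exact ⟨a + b, by rw [sg_mul]; exact Rep.sg _ _ _ _ ha hb⟩

/-- The submonoid of represented elements. -/
def G : Submonoid M where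
  carrier := {x | ∃ n, Rep cp n x}
  one_mem' := ⟨1, Rep.word _ IsWord.one⟩
  mul_mem' := rep_mul cp

/-- The CP structure on the submonoid of represented elements. -/
def cpG : DCP (G cp) 2 where
  Phi m := ⟨sg cp (m 0) (m 1), by
    obtain ⟨a, ha⟩ := (m 0).2
    obtain ⟨b, hb⟩ := (m 1).2
    exact ⟨a + b, Rep.sg _ _ _ _ ha hb⟩⟩
  tau i := match i with
    | 0 => ⟨p1 cp, 1, Rep.word _ (by rw [← one_mul (p1 cp)]; exact IsWord.mul_p1 _ IsWord.one)⟩
    | 1 => ⟨p2 cp, 1, Rep.word _ (by rw [← one_mul (p2 cp)]; exact IsWord.mul_p2 _ IsWord.one)⟩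
  bij := by
    constructor
    · intro m m' h
      have h1 := sg_inj cp (congrArg Subtype.val h)
      funext i
      match i with
      | 0 => exact Subtype.ext h1.1
      | 1 => exact Subtype.ext h1.2
    · rintro ⟨x, hx⟩
      refine ⟨fun i => match i with
        | 0 => ⟨p1 cp * x, rep_p1_mul cp hx⟩
        | 1 => ⟨p2 cp * x, rep_p2_mul cp hx⟩, ?_⟩
      exact Subtype.ext (sg_p cp x)
  spec m i := by
    match i with
    | 0 => exact Subtype.ext (p1_sg cp _ _)
    | 1 => exact Subtype.ext (p2_sg cp _ _)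

/-! ### Units -/

/-- The ranges of `π₁` and `π₂` are disjoint. -/
def Sep : Prop := ∀ u w : M, u * p2 cp ≠ w * p1 cp

variable {cp}

theorem not_isUnit_mul_p1 (hs : Sep cp) (y : M) : ¬ IsUnit (y * p1 cp) := by
  rintro ⟨u, hu⟩
  apply hs 1 (p2 cp * (↑u⁻¹ * y))
  have : (↑u⁻¹ : M) * (y * p1 cp) = 1 := by rw [← hu, Units.inv_mul]
  rw [mul_assoc, mul_assoc, this, mul_one, one_mul]

theorem not_isUnit_mul_p2 (hs : Sep cp) (y : M) : ¬ IsUnit (y * p2 cp) := by
  rintro ⟨u, hu⟩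
  apply hs (p1 cp * (↑u⁻¹ * y)) 1
  have : (↑u⁻¹ : M) * (y * p2 cp) = 1 := by rw [← hu, Units.inv_mul]
  rw [mul_assoc, mul_assoc, this, mul_one, one_mul]

theorem not_isUnit_p1 (hs : Sep cp) : ¬ IsUnit (p1 cp) := by
  have := not_isUnit_mul_p1 hs 1
  rwa [one_mul] at this

theorem isUnit_left (hs : Sep cp) (hG : ∀ x : M, ∃ n, Rep cp n x) {y z : M}
    (h : IsUnit (sg cp (y * p1 cp) (z * p2 cp))) : IsUnit y := by
  obtain ⟨x', hx'⟩ := h
  -- the inverse
  set c : M := p1 cp * ↑x'⁻¹ with hc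
  have h1 : y * c = p1 cp := by
    rw [hc, ← mul_assoc]
    have : y * p1 cp = p1 cp * ↑x' := by rw [hx', p1_sg]
    rw [this, mul_assoc, Units.mul_inv, mul_one]
  have h2 : c * ↑x' = p1 cp := by rw [hc, mul_assoc, Units.inv_mul, mul_one]
  have hp1x : p1 cp * (x' : M) = y * p1 cp := by rw [hx', p1_sg]
  have hp2x : p2 cp * (x' : M) = z * p2 cp := by rw [hx', p2_sg]
  have h3 : ∃ c', c = c' * p1 cp := by
    obtain ⟨n, hn⟩ := hG c
    rcases four_cases cp hn with ⟨y', -, h, -, e⟩ | ⟨y', -, h, -, e⟩ |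
      ⟨a, b, c1, c2, -, -, -, _, ⟨h, -, rfl⟩, e⟩ | ⟨_, ⟨h, -, rfl⟩, e⟩ | ⟨y', _, ⟨h, -, rfl⟩, e⟩
    · exact ⟨h * y', by rw [e, mul_assoc]⟩
    · exfalso
      apply hs (h * y' * z) 1
      rw [one_mul, ← h2, e]
      simp only [mul_assoc, hp2x]
    · exfalso
      rw [e, mul_assoc, sg_mul, mul_assoc, mul_assoc, hp1x, hp2x] at h2
      have h3 := congrArg (fun t => p2 cp * (↑h⁻¹ * t)) h2
      simp only [Units.inv_mul_cancel_left, p2_sg] at h3
      apply hs (c2 * z) (p2 cp * ↑h⁻¹)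
      rw [mul_assoc, h3, mul_assoc]
    · exfalso
      rw [e, mul_one] at h2
      exact not_isUnit_p1 hs ⟨h * x', by rw [Units.val_mul, h2]⟩
    · exfalso
      rw [e, mul_assoc, sg_mul, one_mul] at h2
      have h3 := congrArg (fun t => p1 cp * (↑h⁻¹ * t)) h2
      simp only [Units.inv_mul_cancel_left, p1_sg] at h3
      exact not_isUnit_mul_p1 hs (p1 cp * ↑h⁻¹) ⟨x', by rw [h3, mul_assoc]⟩
  obtain ⟨c', hc'⟩ := h3
  have hcancel : ∀ a b : M, a * p1 cp = b * p1 cp → a = b := by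
    intro a b hab
    have := congrArg (· * sg cp 1 1) hab
    simpa only [mul_assoc, p1_sg, mul_one] using this
  have h4 : y * c' = 1 := by
    apply hcancel
    rw [one_mul, mul_assoc, ← hc', h1]
  have h5 : c' * y = 1 := by
    apply hcancel
    rw [one_mul, mul_assoc, ← hp1x, ← mul_assoc, ← hc', h2]
  exact ⟨⟨y, c', h4, h5⟩, rfl⟩

theorem isUnit_of_inH {x : M} (h : InH cp x) : IsUnit x := by
  obtain ⟨u, -, rfl⟩ := h
  exact u.isUnit

theorem isUnit_right (hs : Sep cp) (hG : ∀ x : M, ∃ n, Rep cp n x) {y z : M}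
    (h : IsUnit (sg cp (y * p1 cp) (z * p2 cp))) : IsUnit z := by
  apply isUnit_left hs hG (z := y)
  have hsw := isUnit_of_inH (inH_swap cp)
  have := (hsw.mul h).mul hsw
  have e : sg cp (p2 cp) (p1 cp) * sg cp (y * p1 cp) (z * p2 cp) * sg cp (p2 cp) (p1 cp) =
      sg cp (z * p1 cp) (y * p2 cp) := by
    simp only [sg_mul, p1_sg, p2_sg, mul_assoc]
  rwa [e] at this

theorem inH_of_rep (hs : Sep cp) (hG : ∀ x : M, ∃ n, Rep cp n x) (n : ℕ) :
    ∀ x : M, Rep cp n x → IsUnit x → InH cp x := by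
  induction n using Nat.strong_induction_on with
  | _ n ih =>
    intro x hx hu
    rcases four_cases cp hx with ⟨y, -, h, -, e⟩ | ⟨y, -, h, -, e⟩ |
      ⟨a, b, y, z, hab, hy, hz, _, ⟨h, hh, rfl⟩, e⟩ | ⟨h, hh, e⟩ | ⟨y, _, ⟨h, -, rfl⟩, e⟩
    · rw [e, ← mul_assoc] at hu
      exact absurd hu (not_isUnit_mul_p1 hs _)
    · rw [e, ← mul_assoc] at hu
      exact absurd hu (not_isUnit_mul_p2 hs _)
    · have ha := hy.pos
      have hb := hz.pos
      rw [e, Units.isUnit_units_mul] at hu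
      have h1 := ih a (by omega) y hy (isUnit_left hs hG hu)
      have h2 := ih b (by omega) z hz (isUnit_right hs hG hu)
      rw [e]
      exact InH.mul cp ⟨h, hh, rfl⟩ (inH_both cp h1 h2)
    · rw [e, mul_one]; exact hh
    · exfalso
      rw [e, Units.isUnit_units_mul] at hu
      obtain ⟨v, hv⟩ := hu
      have h1 : p1 cp * (v : M) = 1 := by rw [hv, p1_sg]
      apply not_isUnit_p1 hs
      refine ⟨v⁻¹, ?_⟩
      calc (↑v⁻¹ : M) = p1 cp * ↑v * ↑v⁻¹ := by rw [h1, one_mul]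
        _ = p1 cp := by rw [mul_assoc, Units.mul_inv, mul_one]

end Identities

/-! ### A model in which the ranges of `π₁` and `π₂` are disjoint -/

/-- `f` on even and `g` on odd numbers. -/
def splitFn (f g : ℕ → ℕ) (n : ℕ) : ℕ := if n % 2 = 0 then f (n / 2) else g (n / 2)

theorem splitFn_even (f g : ℕ → ℕ) (n : ℕ) : splitFn f g (2 * n) = f n := by
  unfold splitFn
  rw [if_pos (by omega), show 2 * n / 2 = n by omega]

theorem splitFn_odd (f g : ℕ → ℕ) (n : ℕ) : splitFn f g (2 * n + 1) = g n := by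
  unfold splitFn
  rw [if_neg (by omega), show (2 * n + 1) / 2 = n by omega]

theorem splitFn_self (f : ℕ → ℕ) : splitFn (fun n => f (2 * n)) (fun n => f (2 * n + 1)) = f := by
  funext n
  rcases Nat.even_or_odd' n with ⟨k, rfl | rfl⟩
  · rw [splitFn_even]
  · rw [splitFn_odd]

/-- A CP structure on the monoid of all functions `ℕ → ℕ`, acting on the right. -/
def model : DCP (Function.End ℕ)ᵐᵒᵖ 2 where
  Phi m := MulOpposite.op (splitFn (m 0).unop (m 1).unop : ℕ → ℕ)
  tau i := match i with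
    | 0 => MulOpposite.op ((fun n => 2 * n) : ℕ → ℕ)
    | 1 => MulOpposite.op ((fun n => 2 * n + 1) : ℕ → ℕ)
  bij := by
    constructor
    · intro m m' h
      have h1 : ∀ n, splitFn (m 0).unop (m 1).unop n = splitFn (m' 0).unop (m' 1).unop n :=
        fun n => congrFun (congrArg MulOpposite.unop h) n
      funext i
      apply MulOpposite.unop_injective
      match i with
      | 0 =>
        show ((m 0).unop : ℕ → ℕ) = (m' 0).unop
        funext n
        exact (splitFn_even _ _ n).symm.trans ((h1 (2 * n)).trans (splitFn_even _ _ n))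
      | 1 =>
        show ((m 1).unop : ℕ → ℕ) = (m' 1).unop
        funext n
        exact (splitFn_odd _ _ n).symm.trans ((h1 (2 * n + 1)).trans (splitFn_odd _ _ n))
    · intro f
      refine ⟨fun i => match i with
        | 0 => MulOpposite.op ((fun n => (f.unop : ℕ → ℕ) (2 * n)) : ℕ → ℕ)
        | 1 => MulOpposite.op ((fun n => (f.unop : ℕ → ℕ) (2 * n + 1)) : ℕ → ℕ), ?_⟩
      exact MulOpposite.unop_injective (splitFn_self f.unop)
  spec m i := by
    apply MulOpposite.unop_injective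
    match i with
    | 0 =>
      show (fun n => splitFn (m 0).unop (m 1).unop (2 * n)) = (m 0).unop
      funext n
      exact splitFn_even _ _ n
    | 1 =>
      show (fun n => splitFn (m 0).unop (m 1).unop (2 * n + 1)) = (m 1).unop
      funext n
      exact splitFn_odd _ _ n

theorem sep_of_universal {U : Type} [Monoid U] {cp : DCP U 2} (h : IsUniversal cp) : Sep cp := by
  intro u w huw
  obtain ⟨f, ⟨hf, -⟩, -⟩ := h _ model
  have h1 := congrArg f huw
  rw [map_mul, map_mul] at h1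
  have e1 : f (p1 cp) = model.tau 0 := hf 0
  have e2 : f (p2 cp) = model.tau 1 := hf 1
  rw [e1, e2] at h1
  have h2 := congrFun (congrArg MulOpposite.unop h1) 0
  have h3 : ∀ a b : ℕ, 2 * a + 1 ≠ 2 * b := by intro a b; omega
  exact h3 _ _ h2

theorem rep_of_universal {U : Type} [Monoid U] {cp : DCP U 2} (h : IsUniversal cp) (x : U) :
    ∃ n, Rep cp n x := by
  obtain ⟨f, ⟨hf1, hf2⟩, -⟩ := h _ (cpG cp)
  obtain ⟨g, -, hg⟩ := h _ cp
  have e1 : (G cp).subtype.comp f = g := by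
    apply hg
    constructor
    · intro i
      rw [MonoidHom.comp_apply, hf1]
      match i with
      | 0 => rfl
      | 1 => rfl
    · intro m
      rw [MonoidHom.comp_apply, hf2, Phi_eq_sg cp (fun i => _)]
      rfl
  have e2 : MonoidHom.id U = g := hg _ ⟨fun _ => rfl, fun _ => rfl⟩
  have e3 : ((f x : G cp) : U) = x := by
    have := DFunLike.congr_fun (e1.trans e2.symm) x
    exact this
  rw [← e3]
  exact (f x).2

/-! ### Existence of a universal CP monoid -/

/-- Terms. -/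
inductive Tm : Type
  | one : Tm
  | p1 : Tm
  | p2 : Tm
  | mul : Tm → Tm → Tm
  | sg : Tm → Tm → Tm

/-- The congruence generated by the axioms of CP monoids. -/
inductive TmRel : Tm → Tm → Prop
  | refl (a : Tm) : TmRel a a
  | symm (a b : Tm) : TmRel a b → TmRel b a
  | trans (a b c : Tm) : TmRel a b → TmRel b c → TmRel a c
  | mul (a b c d : Tm) : TmRel a b → TmRel c d → TmRel (a.mul c) (b.mul d)
  | sg (a b c d : Tm) : TmRel a b → TmRel c d → TmRel (a.sg c) (b.sg d)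
  | assoc (a b c : Tm) : TmRel ((a.mul b).mul c) (a.mul (b.mul c))
  | one_mul (a : Tm) : TmRel (Tm.one.mul a) a
  | mul_one (a : Tm) : TmRel (a.mul Tm.one) a
  | p1_sg (a b : Tm) : TmRel (Tm.p1.mul (a.sg b)) a
  | p2_sg (a b : Tm) : TmRel (Tm.p2.mul (a.sg b)) b
  | sg_p (a : Tm) : TmRel ((Tm.p1.mul a).sg (Tm.p2.mul a)) a

/-- The setoid on terms. -/
instance tmSetoid : Setoid Tm := ⟨TmRel, TmRel.refl, fun h => TmRel.symm _ _ h,
  fun h h' => TmRel.trans _ _ _ h h'⟩

/-- The free CP monoid. -/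
def Free : Type := Quotient tmSetoid

/-- The class of a term. -/
def Free.mk (a : Tm) : Free := Quotient.mk tmSetoid a

instance freeMonoid : Monoid Free where
  one := Free.mk Tm.one
  mul := Quotient.map₂ Tm.mul (fun a b h c d h' => TmRel.mul a b c d h h')
  mul_assoc := by
    rintro ⟨a⟩ ⟨b⟩ ⟨c⟩
    exact Quotient.sound (TmRel.assoc a b c)
  one_mul := by
    rintro ⟨a⟩
    exact Quotient.sound (TmRel.one_mul a)
  mul_one := by
    rintro ⟨a⟩
    exact Quotient.sound (TmRel.mul_one a)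

/-- `Σ` on the free CP monoid. -/
def freeSg : Free → Free → Free :=
  Quotient.map₂ Tm.sg (fun a b h c d h' => TmRel.sg a b c d h h')

/-- The CP structure on the free CP monoid. -/
def freeCP : DCP Free 2 where
  Phi m := freeSg (m 0) (m 1)
  tau i := match i with
    | 0 => Free.mk Tm.p1
    | 1 => Free.mk Tm.p2
  bij := by
    have h1 : ∀ a b : Free, Free.mk Tm.p1 * freeSg a b = a := by
      rintro ⟨a⟩ ⟨b⟩; exact Quotient.sound (TmRel.p1_sg a b)
    have h2 : ∀ a b : Free, Free.mk Tm.p2 * freeSg a b = b := by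
      rintro ⟨a⟩ ⟨b⟩; exact Quotient.sound (TmRel.p2_sg a b)
    constructor
    · intro m m' h
      have h' : freeSg (m 0) (m 1) = freeSg (m' 0) (m' 1) := h
      funext i
      match i with
      | 0 => rw [← h1 (m 0) (m 1), h', h1]
      | 1 => rw [← h2 (m 0) (m 1), h', h2]
    · rintro ⟨a⟩
      refine ⟨fun i => match i with
        | 0 => Free.mk (Tm.p1.mul a)
        | 1 => Free.mk (Tm.p2.mul a), ?_⟩
      exact Quotient.sound (TmRel.sg_p a)
  spec m i := by
    match i with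
    | 0 =>
      show Free.mk Tm.p1 * freeSg (m 0) (m 1) = m 0
      generalize m 0 = a
      generalize m 1 = b
      revert a b
      rintro ⟨a⟩ ⟨b⟩; exact Quotient.sound (TmRel.p1_sg a b)
    | 1 =>
      show Free.mk Tm.p2 * freeSg (m 0) (m 1) = m 1
      generalize m 0 = a
      generalize m 1 = b
      revert a b
      rintro ⟨a⟩ ⟨b⟩; exact Quotient.sound (TmRel.p2_sg a b)

section Eval

variable {N : Type} [Monoid N] (cp : DCP N 2)

/-- Evaluation of terms. -/
def eval : Tm → N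
  | Tm.one => 1
  | Tm.p1 => p1 cp
  | Tm.p2 => p2 cp
  | Tm.mul a b => eval a * eval b
  | Tm.sg a b => sg cp (eval a) (eval b)

theorem eval_rel {a b : Tm} (h : TmRel a b) : eval cp a = eval cp b := by
  induction h with
  | refl a => rfl
  | symm a b _ ih => exact ih.symm
  | trans a b c _ _ ih ih' => exact ih.trans ih'
  | mul a b c d _ _ ih ih' => show eval cp a * eval cp c = _; rw [ih, ih']; rfl
  | sg a b c d _ _ ih ih' => show sg cp (eval cp a) (eval cp c) = _; rw [ih, ih']; rfl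
  | assoc a b c => exact mul_assoc _ _ _
  | one_mul a => exact one_mul _
  | mul_one a => exact mul_one _
  | p1_sg a b => exact p1_sg cp _ _
  | p2_sg a b => exact p2_sg cp _ _
  | sg_p a => exact sg_p cp _

/-- The homomorphism from the free CP monoid. -/
def evalHom : Free →* N where
  toFun := Quotient.lift (eval cp) (fun _ _ h => eval_rel cp h)
  map_one' := rfl
  map_mul' := by rintro ⟨a⟩ ⟨b⟩; rfl

end Eval

theorem free_universal : IsUniversal freeCP := by
  intro N _ cp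
  refine ⟨evalHom cp, ⟨?_, ?_⟩, ?_⟩
  · intro i
    match i with
    | 0 => rfl
    | 1 => rfl
  · intro m
    rw [Phi_eq_sg cp]
    show evalHom cp (freeSg (m 0) (m 1)) = _
    generalize m 0 = a
    generalize m 1 = b
    revert a b
    rintro ⟨a⟩ ⟨b⟩
    rfl
  · rintro g ⟨hg1, hg2⟩
    have key : ∀ a : Tm, g (Free.mk a) = eval cp a := by
      intro a
      induction a with
      | one => exact map_one g
      | p1 => exact hg1 0
      | p2 => exact hg1 1
      | mul a b iha ihb =>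
        have : g (Free.mk a * Free.mk b) = eval cp (a.mul b) := by
          rw [map_mul, iha, ihb]; rfl
        exact this
      | sg a b iha ihb =>
        have h1 := hg2 ![Free.mk a, Free.mk b]
        rw [Phi_eq_sg cp] at h1
        have h2 : g (freeSg (Free.mk a) (Free.mk b)) =
            sg cp (g (Free.mk a)) (g (Free.mk b)) := h1
        rw [iha, ihb] at h2
        exact h2
    ext x
    obtain ⟨a, rfl⟩ := Quotient.exists_rep x
    exact key a

/-- **Theorem.** A universal CP monoid exists, and for every universal CP monoid `U` the group of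
units of `U` is generated by the union of the images `ψ_{Φ,τ}(S_d)`, over all `d ≥ 2` and all
`d`-CP structures `(Φ, τ₁, …, τ_d) ∈ 𝕊(U)`. -/
theorem result :
    (∃ (U : Type) (_ : Monoid U) (cp : DCP U 2), IsUniversal cp) ∧
    ∀ (U : Type) [Monoid U] (cp : DCP U 2), IsUniversal cp → H cp = ⊤ := by
  refine ⟨⟨Free, inferInstance, freeCP, free_universal⟩, ?_⟩
  intro U _ cp h
  rw [eq_top_iff]
  intro u _
  obtain ⟨n, hn⟩ := rep_of_universal h (u : U)
  obtain ⟨v, hv, hvu⟩ := inH_of_rep (sep_of_universal h) (rep_of_universal h) n u hn u.isUnit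
  rwa [← Units.ext hvu]

end Pool.Agent.Results.MP_6189ff_al.UnitsGenerated
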